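import Pool.Agent.H979.GW.Main

/-!
# Diffusive limit of the critically biased walk on multitype Galton-Watson trees

`MP_276d40_pr`, question Q1, answered affirmatively in full: the quenched invariance principle of the
`ρ`-biased walk holds under (H1), (H2) and (H_p) for some `p ≥ 2` (second moments are enough).

Definitions used in the statement (files `Pool/Agent/H979/GW/Defs.lean`, `StmC.lean`, `Law.lean`,
`Main.lean`):
* a vertex is a list of labels `(type, index) : Q × ℕ`; the head of the list is the label of the vertex
  among the children of its parent (the tail), `[]` is the root; `Vx Q` is the type of the vertices;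
* an environment `ω : Vx Q → Q → ℕ` gives to each vertex `v` its offspring configuration `ω v`;
  `law q a` is the law of the environment with root of type `a`: independent coordinates, `ω v` has
  the law `q (type of v)`;
* `cht ω v` is the finite set of the labels `(b, i)`, `i < ω v b`, of the children of `v`; `Lev ch n` is
  the set of the vertices of generation `n` of the tree; `Survives ω` says that no generation is empty;
* `mA q` is the mean matrix `A a b = ∫ x b d(q a)`;
* `trp ρ ω` is the transition matrix of the `ρ`-biased walk on the tree of `ω`, and `IsWalk ρ ω Pw X`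
  says that `X` is a measurable process with the finite path probabilities of this Markov chain
  started at the root;
* `DD` is `D[0,∞)`, `ContLU F` is continuity of `F : DD → ℝ` for uniform convergence on compact
  intervals, `stepD n v` is the path `t ↦ v ⌊n t⌋`, `absD b` is the path `t ↦ |b t|`, and `IsBM P' B`
  says that `B` is a standard Brownian motion with continuous paths.
-/

namespace Pool.Agent.Results.MP_276d40_pr.CriticalCLT

open MeasureTheory ProbabilityTheory Filter Topology Set
open scoped ENNReal NNReal
open Pool.Agent.H979.GW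

/-- **Theorem.** Let the offspring laws `q a` (`a` in the finite set `Q` of types) have a mean matrix
`A` with a power with positive entries, with Perron-Frobenius eigenvalue `ρ > 1`, and with
`E |x|^p < ∞` for some `p ≥ 2`. Then there is `σ > 0` such that for each type `a` of the root, for almost
every tree that survives the `ρ`-biased walk exists, and for every version `X` of it, every standard
Brownian motion `B` and every bounded continuous function `F` on `D[0,∞)` with the topology of uniform
convergence on compact intervals, `E F(t ↦ |X_{⌊nt⌋}| / (σ √n)) → E F(t ↦ |B_t|)`. Moreover standard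
Brownian motions exist. -/
theorem result {Q : Type} [Fintype Q] [DecidableEq Q] (q : Q → Measure (Q → ℕ))
    [∀ a, IsProbabilityMeasure (q a)] (ρ : ℝ) (hρ : 1 < ρ)
    (hPF : ∃ e : Q → ℝ, (∀ a, 0 < e a) ∧ ∀ a, ∑ b, mA q a b * e b = ρ * e a)
    (hprim : ∃ n₀ : ℕ, ∀ a b, 0 < ((mA q) ^ n₀) a b) (p : ℝ) (hp : 2 ≤ p)
    (hmom : ∀ a, ∫⁻ x, ((∑ b, x b : ℕ) : ℝ≥0∞) ^ p ∂(q a) < ∞) :
    (∃ (Ω' : Type) (_ : MeasurableSpace Ω') (P' : Measure Ω')
      (_ : IsProbabilityMeasure P') (B : ℝ≥0 → Ω' → ℝ), IsBM P' B) ∧
    ∃ σ : ℝ, 0 < σ ∧ ∀ a, ∀ᵐ ω ∂(law q a), Survives ω →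
      (∃ (Ξ : Type) (_ : MeasurableSpace Ξ) (Pw : Measure Ξ) (X : ℕ → Ξ → Vx Q),
        IsProbabilityMeasure Pw ∧ IsWalk ρ ω Pw X) ∧
      ∀ (Ξ : Type) (_ : MeasurableSpace Ξ) (Pw : Measure Ξ) (X : ℕ → Ξ → Vx Q),
        IsProbabilityMeasure Pw → IsWalk ρ ω Pw X →
        ∀ (Ω' : Type) (_ : MeasurableSpace Ω') (P' : Measure Ω') (B : ℝ≥0 → Ω' → ℝ),
          IsProbabilityMeasure P' → ∀ (hB : IsBM P' B), ∀ F : DD → ℝ, ContLU F →
          (∃ C : ℝ, ∀ x, |F x| ≤ C) →
          Tendsto (fun n : ℕ => ∫ ξ, F (stepD n (fun k => ((X k ξ).length : ℝ) / (σ * √n))) ∂Pw)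
            atTop (𝓝 (∫ ω', F (absD (fun t => B t ω') (hB.cont ω')) ∂P')) := by
  refine ⟨Pool.Agent.H996.gw_bmx, ?_⟩
  rcases isEmpty_or_nonempty Q with hQ | hQ
  · exact ⟨1, one_pos, fun a => (hQ.false a).elim⟩
  · exact main q hρ hPF hprim hp hmom

end Pool.Agent.Results.MP_276d40_pr.CriticalCLT
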